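import Pool.Agent.H948.SF.Stm

/-!
# Project SF (helper948), S_RIX: reindexing of product measures (helper230)
-/

set_option autoImplicit false

namespace Pool.Agent.H230.SF

open MeasureTheory ProbabilityTheory Set Filter Pool.Agent.H948.SF
open scoped ENNReal NNReal Nat Topology

theorem rix1 (J J' : Type) (r : J → ℝ) (r' : J' → ℝ) (f : J' → J) (hf : Function.Injective f)
    (hr : ∀ j, r (f j) = r' j) :
    MeasurePreserving (fun (ω : J → Cell) (j : J') => ω (f j))
      (Measure.infinitePi fun j => cellLaw (r j)) (Measure.infinitePi fun j => cellLaw (r' j)) := by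
  classical
  have hm : Measurable (fun (ω : J → Cell) (j : J') => ω (f j)) :=
    measurable_pi_lambda _ fun j => measurable_pi_apply (f j)
  refine ⟨hm, ?_⟩
  refine Measure.eq_infinitePi _ ?_
  intro s t ht
  rw [Measure.map_apply hm (MeasurableSet.pi s.countable_toSet fun i _ => ht i)]
  let g : J → Set Cell := fun j => if h : ∃ i, f i = j then t h.choose else univ
  have hg : ∀ i, g (f i) = t i := by
    intro i
    have h : ∃ i', f i' = f i := ⟨i, rfl⟩
    have h2 : h.choose = i := hf h.choose_spec
    show (if h : ∃ i', f i' = f i then t h.choose else univ) = t i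
    rw [dif_pos h, h2]
  have hgm : ∀ j, MeasurableSet (g j) := by
    intro j
    show MeasurableSet (if h : ∃ i, f i = j then t h.choose else univ)
    split_ifs with h
    · exact ht _
    · exact MeasurableSet.univ
  have hpre : (fun (ω : J → Cell) (j : J') => ω (f j)) ⁻¹' Set.pi s t =
      Set.pi (s.map ⟨f, hf⟩ : Finset J) g := by
    ext ω
    simp only [mem_preimage, Set.mem_pi, Finset.mem_coe, Finset.mem_map,
      Function.Embedding.coeFn_mk, forall_exists_index, and_imp, forall_apply_eq_imp_iff₂]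
    constructor
    · intro h i hi
      rw [hg i]
      exact h i hi
    · intro h i hi
      have := h i hi
      rwa [hg i] at this
  rw [hpre, Measure.infinitePi_pi _ (fun j _ => hgm j), Finset.prod_map]
  refine Finset.prod_congr rfl fun i _ => ?_
  simp only [Function.Embedding.coeFn_mk]
  rw [hg i, hr i]

/-- The index map of `pull`. -/
def idx {A B : Type} (Φ : A → B) (k0 : ℤ) (i : Lab A × ℤ) : Lab B × ℤ :=
  match i.1 with
  | Sum.inl e => (Sum.inl (e.map Φ), i.2 + k0)
  | Sum.inr x => (Sum.inr (Φ x), i.2 + k0)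

theorem idx_inj {A B : Type} (Φ : A → B) (k0 : ℤ) (h : Function.Injective Φ) :
    Function.Injective (idx Φ k0) := by
  rintro ⟨a | a, k⟩ ⟨b | b, l⟩ hab
  · simp only [idx, Prod.mk.injEq, Sum.inl.injEq, add_left_inj] at hab
    rw [Sym2.map.injective h hab.1, hab.2]
  · simp [idx] at hab
  · simp [idx] at hab
  · simp only [idx, Prod.mk.injEq, Sum.inr.injEq, add_left_inj] at hab
    rw [h hab.1, hab.2]

theorem pull_eq {A B : Type} (Φ : A → B) (k0 : ℤ) :
    pull Φ k0 = fun (ω : Env (Lab B)) (i : Lab A × ℤ) => ω (idx Φ k0 i) := by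
  funext ω i
  rcases i with ⟨a | a, k⟩ <;> rfl

theorem s_rix : S_RIX := by
  refine ⟨rix1, ?_⟩
  intro A B lam Φ k0 hΦ
  rw [pull_eq]
  refine rix1 (Lab B × ℤ) (Lab A × ℤ) (fun i => contactRate lam i.1)
    (fun i => contactRate lam i.1) (idx Φ k0) (idx_inj Φ k0 hΦ) ?_
  rintro ⟨a | a, k⟩ <;> rfl

end Pool.Agent.H230.SF
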